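import Pool.Agent.Helper14.LogPoly.Super6
set_option autoImplicit false
namespace Pool.Agent.Helper98.LogPoly
open Filter Topology

/-- Piece P3 (supersolution): uniform bound for the exponential moments of the difference walk
in the subcritical regime. -/
theorem super_bound {a : ℝ} (ha : -1 < a) {h : Pt → ℝ} (hnn : ∀ x, 0 ≤ h x) (hh : HAsym a h)
    {t1 : ℝ} (ht1 : t1 < tst (a + 2)) :
    ∃ C B0 : ℝ, 0 < B0 ∧ ∀ B : ℝ, 0 < B → B < B0 → ∀ N : ℕ, 1 ≤ N →
      B * ((1 / 2) * Real.log N) ^ (a + 2) ≤ t1 →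
      ∀ k ≤ N, ∀ x, uu (fun y => B * h y) k x ≤ C := by
  have hT : 0 < tst (a + 2) := (isLeast_tst (p := a + 2) (by linarith)).1.1
  obtain ⟨c0, K, B0, N0, hc0, hK, hB0, hmain⟩ := super_fun ha hnn hh
    (t1 := max t1 (tst (a + 2) / 2)) (lt_max_of_lt_right (by linarith))
    (max_lt ht1 (by linarith))
  obtain ⟨H, hH, hHb⟩ := h_bdd hh
  refine ⟨max ((1 / c0) * Real.exp (K / c0)) (Real.exp (N0 * (B0 * H))), B0, hB0, ?_⟩
  intro B hB hBB N hN hBL k hk x
  rcases le_or_gt N0 N with h1 | h1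
  · obtain ⟨f, f1, f2, f3⟩ := hmain B hB hBB N h1 hN (hBL.trans (le_max_left _ _))
    exact (uu_le_exp hN hc0 hK f1 f2 f3 k hk x).trans (le_max_left _ _)
  · refine (uu_crude (H := B0 * H) (fun y => ?_) k x).trans ?_
    · exact mul_le_mul hBB.le (hHb y) (hnn y) hB0.le
    · refine le_trans ?_ (le_max_right _ _)
      apply Real.exp_le_exp.2
      apply mul_le_mul_of_nonneg_right _ (by positivity)
      have : k ≤ N0 := hk.trans h1.le
      exact_mod_cast this

end Pool.Agent.Helper98.LogPoly
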