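import Pool.Agent.Helper93.LogPoly.Bessel
import Pool.Agent.Helper94.LogPoly.Rad
set_option autoImplicit false
namespace Pool.Agent.Helper98.LogPoly
open Filter Topology

/-! ### averaging operator -/

theorem PD_mono {f g : Pt → ℝ} {x : Pt}
    (h : ∀ i j, f (x + stp i - stp j) ≤ g (x + stp i - stp j)) : PD f x ≤ PD g x := by
  unfold PD
  apply mul_le_mul_of_nonneg_left _ (by norm_num)
  exact Finset.sum_le_sum fun i _ => Finset.sum_le_sum fun j _ => h i j

theorem PD_const (c : ℝ) (x : Pt) : PD (fun _ => c) x = c := by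
  simp [PD]; ring

theorem PD_mul_left (c : ℝ) (f : Pt → ℝ) (x : Pt) : PD (fun y => c * f y) x = c * PD f x := by
  unfold PD
  simp_rw [← Finset.mul_sum]
  ring

theorem PD_add (f g : Pt → ℝ) (x : Pt) : PD (fun y => f y + g y) x = PD f x + PD g x := by
  unfold PD
  simp_rw [Finset.sum_add_distrib]
  ring

theorem PD_sub (f g : Pt → ℝ) (x : Pt) : PD (fun y => f y - g y) x = PD f x - PD g x := by
  unfold PD
  simp_rw [Finset.sum_sub_distrib]
  ring

theorem le_PD {f : Pt → ℝ} {c : ℝ} (h : ∀ y, c ≤ f y) (x : Pt) : c ≤ PD f x := by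
  calc c = PD (fun _ => c) x := (PD_const c x).symm
    _ ≤ PD f x := PD_mono fun _ _ => h _

theorem PD_le {f : Pt → ℝ} {c : ℝ} (h : ∀ y, f y ≤ c) (x : Pt) : PD f x ≤ c := by
  calc PD f x ≤ PD (fun _ => c) x := PD_mono fun _ _ => h _
    _ = c := PD_const c x

theorem uu_succ (V : Pt → ℝ) (k : ℕ) (x : Pt) :
    uu V (k + 1) x = PD (fun y => Real.exp (V y) * uu V k y) x := rfl

theorem uu_nonneg (V : Pt → ℝ) (k : ℕ) (x : Pt) : 0 ≤ uu V k x := by
  induction k generalizing x with
  | zero => simp [uu]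
  | succ k ih =>
    rw [uu_succ]
    exact le_PD (fun y => mul_nonneg (Real.exp_pos _).le (ih y)) x

theorem uu_crude {V : Pt → ℝ} {H : ℝ} (hV : ∀ x, V x ≤ H) (k : ℕ) (x : Pt) :
    uu V k x ≤ Real.exp (k * H) := by
  induction k generalizing x with
  | zero => simp [uu]
  | succ k ih =>
    rw [uu_succ]
    refine PD_le (fun y => ?_) x
    have h1 : Real.exp (V y) ≤ Real.exp H := Real.exp_le_exp.2 (hV y)
    calc Real.exp (V y) * uu V k y ≤ Real.exp H * Real.exp (k * H) :=
          mul_le_mul h1 (ih y) (uu_nonneg V k y) (Real.exp_pos _).le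
      _ = Real.exp (((k + 1 : ℕ) : ℝ) * H) := by
          rw [← Real.exp_add]; congr 1; push_cast; ring

theorem uu_le_of_super {V f : Pt → ℝ} {c0 q : ℝ} (hc0 : 0 < c0) (hf : ∀ x, c0 ≤ f x)
    (hq : 0 ≤ q) (h : ∀ x, Real.exp (V x) * PD f x ≤ q * f x) (k : ℕ) (x : Pt) :
    uu V k x ≤ (1 / c0) * q ^ k * PD f x := by
  induction k generalizing x with
  | zero =>
    simp only [uu, pow_zero, mul_one]
    have := le_PD hf x
    rw [one_div, ← div_eq_inv_mul, le_div_iff₀ hc0]
    linarith
  | succ k ih =>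
    rw [uu_succ]
    calc PD (fun y => Real.exp (V y) * uu V k y) x
        ≤ PD (fun y => ((1 / c0) * q ^ (k + 1)) * f y) x := by
          apply PD_mono
          intro i j
          set y := x + stp i - stp j
          calc Real.exp (V y) * uu V k y ≤ Real.exp (V y) * ((1 / c0) * q ^ k * PD f y) :=
                mul_le_mul_of_nonneg_left (ih y) (Real.exp_pos _).le
            _ = ((1 / c0) * q ^ k) * (Real.exp (V y) * PD f y) := by ring
            _ ≤ ((1 / c0) * q ^ k) * (q * f y) :=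
                mul_le_mul_of_nonneg_left (h y) (by positivity)
            _ = ((1 / c0) * q ^ (k + 1)) * f y := by ring
      _ = (1 / c0) * q ^ (k + 1) * PD f x := PD_mul_left _ _ _

theorem uu_le_exp {V f : Pt → ℝ} {c0 K : ℝ} {N : ℕ} (hN : 1 ≤ N) (hc0 : 0 < c0) (hK : 0 ≤ K)
    (hf : ∀ x, c0 ≤ f x) (hf1 : ∀ x, f x ≤ 1)
    (h : ∀ x, Real.exp (V x) * PD f x ≤ f x + K / N) (k : ℕ) (hk : k ≤ N) (x : Pt) :
    uu V k x ≤ (1 / c0) * Real.exp (K / c0) := by
  have hN' : (0 : ℝ) < N := by exact_mod_cast hN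
  set q : ℝ := 1 + K / c0 / N with hq
  have hq0 : 0 ≤ K / c0 / N := by positivity
  have hq1 : 1 ≤ q := by rw [hq]; linarith
  have h' : ∀ x, Real.exp (V x) * PD f x ≤ q * f x := by
    intro x
    refine (h x).trans ?_
    have : K / N ≤ K / c0 / N * f x := by
      calc K / N = K / c0 / N * c0 := by field_simp
        _ ≤ K / c0 / N * f x := mul_le_mul_of_nonneg_left (hf x) hq0
    rw [hq]; linarith
  have h1 := uu_le_of_super hc0 hf (by linarith) h' k x
  have h2 : q ^ k ≤ Real.exp (K / c0) := by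
    calc q ^ k ≤ q ^ N := pow_le_pow_right₀ hq1 hk
      _ ≤ (Real.exp (K / c0 / N)) ^ N := by
          apply pow_le_pow_left₀ (by linarith)
          rw [hq]; linarith [Real.add_one_le_exp (K / c0 / N)]
      _ = Real.exp (K / c0) := by
          rw [← Real.exp_nat_mul]; congr 1; field_simp
  have h3 : PD f x ≤ 1 := PD_le hf1 x
  have h4 : 0 ≤ PD f x := hc0.le.trans (le_PD hf x)
  calc uu V k x ≤ (1 / c0) * q ^ k * PD f x := h1
    _ ≤ (1 / c0) * Real.exp (K / c0) * 1 := by
        apply mul_le_mul _ h3 h4 (by positivity)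
        exact mul_le_mul_of_nonneg_left h2 (by positivity)
    _ = _ := by ring

/-! ### the radial profile -/

noncomputable def Fc (a c r : ℝ) : ℝ := GG (a + 2) (c * r ^ (a + 2))
noncomputable def F1c (a c r : ℝ) : ℝ := c * (a + 2) * r ^ (a + 1) * GG1 (a + 2) (c * r ^ (a + 2))
noncomputable def F2c (a c r : ℝ) : ℝ := -2 * c * r ^ a * GG (a + 2) (c * r ^ (a + 2))
noncomputable def F3c (a c r : ℝ) : ℝ :=
  -2 * c * (a * r ^ (a - 1) * Fc a c r + r ^ a * F1c a c r)

theorem hasDerivAt_pw {a c r : ℝ} (hr : 0 < r) :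
    HasDerivAt (fun r : ℝ => c * r ^ (a + 2)) (c * ((a + 2) * r ^ (a + 1))) r := by
  have := (Real.hasDerivAt_rpow_const (x := r) (p := a + 2) (Or.inl hr.ne')).const_mul c
  refine this.congr_deriv ?_
  have e : a + 2 - 1 = a + 1 := by ring
  rw [e]

theorem hasDerivAt_Fc {a c r : ℝ} (ha : -1 < a) (hr : 0 < r) :
    HasDerivAt (Fc a c) (F1c a c r) r := by
  have h1 := (hasDerivAt_GG (p := a + 2) (by linarith) (c * r ^ (a + 2))).comp r
    (hasDerivAt_pw (a := a) (c := c) hr)
  refine HasDerivAt.congr_deriv (f := Fc a c) h1 ?_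
  unfold F1c; ring

theorem hasDerivAt_F1c {a c r : ℝ} (ha : -1 < a) (hr : 0 < r) :
    HasDerivAt (F1c a c) (F2c a c r) r := by
  have h1 := (hasDerivAt_GG1 (p := a + 2) (by linarith) (c * r ^ (a + 2))).comp r
    (hasDerivAt_pw (a := a) (c := c) hr)
  have h2 := (Real.hasDerivAt_rpow_const (x := r) (p := a + 1) (Or.inl hr.ne')).const_mul
    (c * (a + 2))
  have h3 := h2.mul h1
  have hode := GG_ode (p := a + 2) (by linarith) (c * r ^ (a + 2))
  have e1 : r ^ (a + 1) = r ^ a * r := by rw [Real.rpow_add hr, Real.rpow_one]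
  have e2 : r ^ (a + 2) = r ^ a * r ^ 2 := by
    rw [Real.rpow_add hr]; norm_num
  have e3 : r ^ (a + 1 - 1) = r ^ a := by congr 1; ring
  refine HasDerivAt.congr_deriv (f := F1c a c) h3 ?_
  unfold F2c
  simp only [Function.comp]
  rw [e3]
  set g := GG (a + 2) (c * r ^ (a + 2))
  set g1 := GG1 (a + 2) (c * r ^ (a + 2))
  set g2 := GG2 (a + 2) (c * r ^ (a + 2))
  rw [e2] at hode
  rw [e1]
  linear_combination (c * r ^ a) * hode

theorem hasDerivAt_F2c {a c r : ℝ} (ha : -1 < a) (hr : 0 < r) :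
    HasDerivAt (F2c a c) (F3c a c r) r := by
  have h1 := (Real.hasDerivAt_rpow_const (x := r) (p := a) (Or.inl hr.ne')).const_mul (-2 * c)
  have h3 := h1.mul (hasDerivAt_Fc (c := c) ha hr)
  refine HasDerivAt.congr_deriv (f := F2c a c) h3 ?_
  unfold F3c; ring


theorem taylor_upper {F F1 F2 : ℝ → ℝ} {r s m : ℝ}
    (h1 : ∀ u ∈ Set.uIcc r s, HasDerivAt F (F1 u) u)
    (h2 : ∀ u ∈ Set.uIcc r s, HasDerivAt F1 (F2 u) u)
    (hm : ∀ u ∈ Set.uIcc r s, F2 u ≤ m) :
    F s ≤ F r + F1 r * (s - r) + (1 / 2) * m * (s - r) ^ 2 := by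
  set g : ℝ → ℝ := fun u => F r + F1 r * (u - r) + (1 / 2) * m * (u - r) ^ 2 - F u with hg
  set g1 : ℝ → ℝ := fun u => F1 r + m * (u - r) - F1 u with hg1
  have d1 : ∀ u ∈ Set.uIcc r s, HasDerivAt g (g1 u) u := by
    intro u hu
    have e1 : HasDerivAt (fun u : ℝ => F r + F1 r * (u - r) + (1 / 2) * m * (u - r) ^ 2)
        (F1 r + m * (u - r)) u := by
      have h0 : HasDerivAt (fun u : ℝ => u - r) 1 u := (hasDerivAt_id u).sub_const r
      have := ((h0.const_mul (F1 r)).const_add (F r)).add ((h0.pow 2).const_mul ((1 / 2) * m))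
      refine this.congr_deriv ?_
      simp; ring
    exact e1.sub (h1 u hu)
  have d2 : ∀ u ∈ Set.uIcc r s, HasDerivAt g1 (m - F2 u) u := by
    intro u hu
    have e1 : HasDerivAt (fun u : ℝ => F1 r + m * (u - r)) m u := by
      have h0 : HasDerivAt (fun u : ℝ => u - r) 1 u := (hasDerivAt_id u).sub_const r
      have := (h0.const_mul m).const_add (F1 r)
      refine this.congr_deriv ?_
      simp
    exact e1.sub (h2 u hu)
  have hgr : g r = 0 := by simp [hg]
  have hg1r : g1 r = 0 := by simp [hg1]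
  have mono1 : MonotoneOn g1 (Set.uIcc r s) := by
    apply monotoneOn_of_deriv_nonneg (convex_uIcc r s)
    · exact fun u hu => (d2 u hu).continuousAt.continuousWithinAt
    · exact fun u hu => (d2 u (interior_subset hu)).differentiableAt.differentiableWithinAt
    · intro u hu
      rw [(d2 u (interior_subset hu)).deriv]
      linarith [hm u (interior_subset hu)]
  have key : 0 ≤ g s := by
    rcases le_total r s with hrs | hrs
    · have hI : Set.uIcc r s = Set.Icc r s := Set.uIcc_of_le hrs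
      have mono : MonotoneOn g (Set.uIcc r s) := by
        apply monotoneOn_of_deriv_nonneg (convex_uIcc r s)
        · exact fun u hu => (d1 u hu).continuousAt.continuousWithinAt
        · exact fun u hu => (d1 u (interior_subset hu)).differentiableAt.differentiableWithinAt
        · intro u hu
          have hu' := interior_subset hu
          rw [(d1 u hu').deriv, ← hg1r]
          exact mono1 Set.left_mem_uIcc hu' (by rw [hI] at hu'; exact hu'.1)
      rw [← hgr]
      exact mono Set.left_mem_uIcc Set.right_mem_uIcc hrs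
    · have hI : Set.uIcc r s = Set.Icc s r := Set.uIcc_of_ge hrs
      have anti : AntitoneOn g (Set.uIcc r s) := by
        apply antitoneOn_of_deriv_nonpos (convex_uIcc r s)
        · exact fun u hu => (d1 u hu).continuousAt.continuousWithinAt
        · exact fun u hu => (d1 u (interior_subset hu)).differentiableAt.differentiableWithinAt
        · intro u hu
          have hu' := interior_subset hu
          rw [(d1 u hu').deriv, ← hg1r]
          exact mono1 hu' Set.left_mem_uIcc (by rw [hI] at hu'; exact hu'.2)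
      rw [← hgr]
      exact anti Set.right_mem_uIcc Set.left_mem_uIcc hrs
  have : g s = F r + F1 r * (s - r) + (1 / 2) * m * (s - r) ^ 2 - F s := rfl
  linarith

end Pool.Agent.Helper98.LogPoly
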