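import Pool.Agent.Helper14.LogPoly.Super3
set_option autoImplicit false
namespace Pool.Agent.Helper98.LogPoly
open Filter Topology

theorem two_lt_log_eight : (2 : ℝ) < Real.log 8 := by
  rw [Real.lt_log_iff_exp_lt (by norm_num)]
  have : Real.exp 2 = Real.exp 1 ^ 2 := by
    rw [← Real.exp_nat_mul]; norm_num
  rw [this]
  have := Real.exp_one_lt_d9
  have h0 := Real.exp_pos 1
  nlinarith

theorem one_le_half_log {t : ℝ} (ht : 8 ≤ t) : 1 ≤ (1 / 2) * Real.log t := by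
  have : Real.log 8 ≤ Real.log t := Real.log_le_log (by norm_num) ht
  linarith [two_lt_log_eight]

theorem log_pow_bound (a : ℝ) : ∃ Ca : ℝ, 1 ≤ Ca ∧ ∀ s : ℝ, 1 ≤ s →
    (1 + Real.log s) ^ a ≤ Ca * s := by
  rcases le_or_gt a 0 with h | h
  · refine ⟨1, le_rfl, fun s hs => ?_⟩
    have h1 : 0 ≤ Real.log s := Real.log_nonneg hs
    have : (1 + Real.log s) ^ a ≤ 1 := Real.rpow_le_one_of_one_le_of_nonpos (by linarith) h
    linarith
  · refine ⟨(1 + a) ^ a, Real.one_le_rpow (by linarith) h.le, fun s hs => ?_⟩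
    have h1 : 0 ≤ Real.log s := Real.log_nonneg hs
    have h2 : Real.log s ≤ s ^ (1 / a) / (1 / a) :=
      Real.log_le_rpow_div (by linarith) (by positivity)
    have h3 : 1 ≤ s ^ (1 / a) := Real.one_le_rpow hs (by positivity)
    have h4 : s ^ (1 / a) / (1 / a) = a * s ^ (1 / a) := by field_simp
    have h5 : 1 + Real.log s ≤ (1 + a) * s ^ (1 / a) := by
      rw [h4] at h2; linarith
    calc (1 + Real.log s) ^ a ≤ ((1 + a) * s ^ (1 / a)) ^ a :=
          Real.rpow_le_rpow (by linarith) h5 h.le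
      _ = (1 + a) ^ a * s := by
          rw [Real.mul_rpow (by linarith) (by positivity), ← Real.rpow_mul (by linarith)]
          rw [one_div, inv_mul_cancel₀ h.ne', Real.rpow_one]

theorem h_bound {a : ℝ} {h : Pt → ℝ} (hh : HAsym a h) {e1 : ℝ} (he : 0 < e1) :
    ∃ ρ0 : ℝ, 8 ≤ ρ0 ∧ ∀ x, ρ0 ≤ nsq x →
      h x ≤ (1 + e1) * (((1 / 2) * Real.log (nsq x)) ^ a / nsq x) := by
  have h1 : ∀ᶠ x : Pt in cofinite,
      h x * nsq x / ((1 / 2) * Real.log (nsq x)) ^ a < 1 + e1 :=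
    hh.eventually_lt_const (by linarith)
  rw [Filter.eventually_cofinite] at h1
  obtain ⟨b, hb⟩ := (h1.image nsq).bddAbove
  refine ⟨max 8 (b + 1), le_max_left _ _, fun x hx => ?_⟩
  have hx8 : 8 ≤ nsq x := (le_max_left _ _).trans hx
  have hxb : b + 1 ≤ nsq x := (le_max_right _ _).trans hx
  have h2 : h x * nsq x / ((1 / 2) * Real.log (nsq x)) ^ a < 1 + e1 := by
    by_contra hcon
    have := hb (Set.mem_image_of_mem nsq (show x ∈ {x | ¬ _} from hcon))
    linarith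
  have hl := one_le_half_log hx8
  have hla : 0 < ((1 / 2) * Real.log (nsq x)) ^ a := Real.rpow_pos_of_pos (by linarith) a
  rw [div_lt_iff₀ hla] at h2
  have hn : 0 < nsq x := by linarith
  rw [← mul_div_assoc, le_div_iff₀ hn]
  exact h2.le

theorem half_log_pow {a Ca : ℝ} (hCa : 1 ≤ Ca)
    (hlog : ∀ s : ℝ, 1 ≤ s → (1 + Real.log s) ^ a ≤ Ca * s) {t : ℝ} (ht : 8 ≤ t) :
    ((1 / 2) * Real.log t) ^ a ≤ Ca * t := by
  have hl := one_le_half_log ht
  rcases le_or_gt a 0 with h | h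
  · have : ((1 / 2) * Real.log t) ^ a ≤ 1 := Real.rpow_le_one_of_one_le_of_nonpos hl h
    nlinarith
  · refine le_trans ?_ (hlog t (by linarith))
    exact Real.rpow_le_rpow (by linarith) (by linarith) h.le

theorem h_bdd {a : ℝ} {h : Pt → ℝ} (hh : HAsym a h) : ∃ H : ℝ, 0 < H ∧ ∀ x, h x ≤ H := by
  obtain ⟨ρ0, hρ0, hb⟩ := h_bound hh (e1 := 1) one_pos
  obtain ⟨Ca, hCa, hlog⟩ := log_pow_bound a
  have hfin : {x : Pt | nsq x < ρ0}.Finite := by
    have : {x : Pt | nsq x < ρ0} ⊆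
        (Set.Icc (-⌈ρ0⌉) ⌈ρ0⌉ ×ˢ Set.Icc (-⌈ρ0⌉) ⌈ρ0⌉ : Set Pt) := by
      intro x hx
      have hx : (x.1 : ℝ) ^ 2 + (x.2 : ℝ) ^ 2 < ρ0 := hx
      have hc := Int.le_ceil ρ0
      have key : ∀ y : ℤ, (y : ℝ) ^ 2 < ρ0 → y ∈ Set.Icc (-⌈ρ0⌉) ⌈ρ0⌉ := by
        intro y hy
        have h1 : (y : ℝ) ^ 2 < (⌈ρ0⌉ : ℝ) := hy.trans_le hc
        have h2 : y ^ 2 < ⌈ρ0⌉ := by exact_mod_cast h1
        constructor
        · nlinarith [sq_nonneg (y + 1), sq_nonneg y]
        · nlinarith [sq_nonneg (y - 1), sq_nonneg y]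
      exact ⟨key x.1 (by nlinarith [sq_nonneg (x.2 : ℝ)]),
        key x.2 (by nlinarith [sq_nonneg (x.1 : ℝ)])⟩
    exact ((Set.finite_Icc _ _).prod (Set.finite_Icc _ _)).subset this
  obtain ⟨b, hb'⟩ := (hfin.image h).bddAbove
  refine ⟨max (2 * Ca) b, lt_of_lt_of_le (by linarith) (le_max_left _ _), fun x => ?_⟩
  rcases lt_or_ge (nsq x) ρ0 with hx | hx
  · exact (hb' (Set.mem_image_of_mem h hx)).trans (le_max_right _ _)
  · refine le_trans ?_ (le_max_left _ _)
    have h1 := hb x hx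
    have hx8 : 8 ≤ nsq x := hρ0.trans hx
    have h2 := half_log_pow hCa hlog hx8
    have h3 : ((1 / 2) * Real.log (nsq x)) ^ a / nsq x ≤ Ca := by
      rw [div_le_iff₀ (by linarith)]; exact h2
    linarith

/-- close points -/
theorem h_near {a : ℝ} {h : Pt → ℝ} (hh : HAsym a h) {e1 κ : ℝ} (he : 0 < e1) (hκ : 15 ≤ κ) :
    ∃ δ0 ρ1 : ℝ, 0 < δ0 ∧ 8 ≤ ρ1 ∧ ∀ N : ℝ, κ ≤ N → ∀ x, ρ1 ≤ nsq x →
      κ + nsq x ≤ δ0 * N → h x ≤ (1 + e1) ^ 3 * (RR κ N x ^ a / (κ + nsq x)) := by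
  obtain ⟨ρ0, hρ0, hb⟩ := h_bound hh he
  have hc : ContinuousAt (fun z : ℝ => z ^ (-a)) 1 :=
    Real.continuousAt_rpow_const 1 (-a) (Or.inl one_ne_zero)
  obtain ⟨θ, hθ, hθ'⟩ := Metric.continuousAt_iff.1 hc e1 he
  refine ⟨θ, max ρ0 (max (κ / θ) (κ / e1)), hθ, hρ0.trans (le_max_left _ _), ?_⟩
  intro N hN x hx hw
  have hx0 : ρ0 ≤ nsq x := (le_max_left _ _).trans hx
  have hx1 : κ / θ ≤ nsq x := ((le_max_left _ _).trans (le_max_right _ _)).trans hx
  have hx2 : κ / e1 ≤ nsq x := ((le_max_right _ _).trans (le_max_right _ _)).trans hx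
  have hx8 : 8 ≤ nsq x := hρ0.trans hx0
  have ht0 : 0 < nsq x := by linarith
  have hκt : κ / nsq x ≤ θ := by
    rw [div_le_iff₀ hθ] at hx1
    rw [div_le_iff₀ ht0]; linarith
  have hκt' : κ / nsq x ≤ e1 := by
    rw [div_le_iff₀ he] at hx2
    rw [div_le_iff₀ ht0]; linarith
  have hR1 := one_le_RR hκ hN x
  have hRw := RR_le_logw hκ hN x
  have hRg := RR_ge hκ hN hw
  set R := RR κ N x with hR
  set t := nsq x with ht
  set l := (1 / 2) * Real.log t with hl
  have hl1 : 1 ≤ l := one_le_half_log hx8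
  have hwt : Real.log (κ + t) ≤ Real.log t + κ / t := by
    have e : κ + t = t * (1 + κ / t) := by field_simp; ring
    have hp : 0 < 1 + κ / t := by positivity
    rw [e, Real.log_mul ht0.ne' hp.ne']
    have := Real.log_le_sub_one_of_pos hp
    linarith
  have hwt' : Real.log t ≤ Real.log (κ + t) := Real.log_le_log ht0 (by linarith)
  have hz : |R / l - 1| < θ := by
    have e : R / l - 1 = (R - l) / l := by field_simp
    rw [e, abs_div, abs_of_pos (by linarith : 0 < l), div_lt_iff₀ (by linarith)]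
    have h1 : |R - l| ≤ θ / 2 := by
      rw [abs_le]
      constructor
      · rw [hl]; linarith
      · rw [hl]; linarith
    nlinarith
  have hz2 : (R / l) ^ (-a) ≤ 1 + e1 := by
    have := hθ' (x := R / l) (by rw [Real.dist_eq]; exact hz)
    rw [Real.dist_eq, Real.one_rpow] at this
    have := (abs_lt.1 this).2
    linarith
  have hl0 : 0 < l := by linarith
  have hR0 : 0 < R := by linarith
  have e2 : l ^ a = (R / l) ^ (-a) * R ^ a := by
    rw [Real.div_rpow hR0.le hl0.le, Real.rpow_neg hR0.le, Real.rpow_neg hl0.le]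
    have : R ^ a ≠ 0 := (Real.rpow_pos_of_pos hR0 a).ne'
    have : l ^ a ≠ 0 := (Real.rpow_pos_of_pos hl0 a).ne'
    field_simp
  have hRa : 0 < R ^ a := Real.rpow_pos_of_pos hR0 a
  have h3 : l ^ a ≤ (1 + e1) * R ^ a := by
    rw [e2]; exact mul_le_mul_of_nonneg_right hz2 hRa.le
  have h4 : R ^ a / t ≤ (1 + e1) * (R ^ a / (κ + t)) := by
    rw [← mul_div_assoc, div_le_div_iff₀ ht0 (by linarith)]
    have : κ ≤ e1 * t := by rwa [div_le_iff₀ ht0] at hκt'
    nlinarith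
  calc h x ≤ (1 + e1) * (l ^ a / t) := hb x hx0
    _ ≤ (1 + e1) * ((1 + e1) * (R ^ a / t)) := by
        apply mul_le_mul_of_nonneg_left _ (by linarith)
        rw [← mul_div_assoc]
        exact div_le_div_of_nonneg_right h3 ht0.le
    _ ≤ (1 + e1) * ((1 + e1) * ((1 + e1) * (R ^ a / (κ + t)))) := by
        apply mul_le_mul_of_nonneg_left _ (by linarith)
        exact mul_le_mul_of_nonneg_left h4 (by linarith)
    _ = _ := by ring

/-- far points -/
theorem h_far {a : ℝ} (_ha : -1 < a) {h : Pt → ℝ} (hh : HAsym a h) {δ t2 : ℝ} (hδ : 0 < δ)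
    (hδ1 : δ ≤ 1) (ht2 : 0 < t2) :
    ∃ K N0 : ℝ, 0 < K ∧ 8 ≤ N0 ∧ ∀ N B : ℝ, N0 ≤ N → 0 < B → B ≤ 1 →
      B * ((1 / 2) * Real.log N) ^ (a + 2) ≤ t2 →
      ∀ x, δ * N / 2 ≤ nsq x → B * h x ≤ K / N := by
  obtain ⟨ρ0, hρ0, hb⟩ := h_bound hh (e1 := 1) one_pos
  obtain ⟨Ca, hCa, hlog⟩ := log_pow_bound a
  refine ⟨4 * (Ca * t2 + 1) / δ, max 8 (2 * ρ0 / δ), by positivity, le_max_left _ _, ?_⟩
  intro N B hN hB hB1 hBL x hx
  have hN8 : 8 ≤ N := (le_max_left _ _).trans hN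
  have hN2 : 2 * ρ0 / δ ≤ N := (le_max_right _ _).trans hN
  have hN0 : 0 < N := by linarith
  rw [div_le_iff₀ hδ] at hN2
  have hxρ : ρ0 ≤ nsq x := by nlinarith
  have hx8 : 8 ≤ nsq x := hρ0.trans hxρ
  have h1 := hb x hxρ
  have hlN : 1 ≤ (1 / 2) * Real.log N := one_le_half_log hN8
  have hl1 : 1 ≤ (1 / 2) * Real.log (nsq x) := one_le_half_log hx8
  set t := nsq x with ht
  set L := (1 / 2) * Real.log N with hL
  set l := (1 / 2) * Real.log t with hl
  have ht0 : 0 < t := by linarith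
  have hd : 0 < δ * N / 2 := by positivity
  set s := t / (δ * N / 2) with hs
  have hs1 : 1 ≤ s := by rw [hs, le_div_iff₀ hd]; linarith
  have hts : t = (δ * N / 2) * s := by rw [hs]; field_simp
  -- key: B * l^a ≤ (Ca t2 + 1) * s
  have key : B * l ^ a ≤ (Ca * t2 + 1) * s := by
    rcases le_or_gt a 0 with h0 | h0
    · have h2 : l ^ a ≤ 1 := Real.rpow_le_one_of_one_le_of_nonpos hl1 h0
      have h3 : 0 ≤ l ^ a := by positivity
      have h4 : B * l ^ a ≤ 1 := by nlinarith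
      have h5 : 1 ≤ (Ca * t2 + 1) * s := by
        have : 0 ≤ Ca * t2 := by positivity
        nlinarith
      linarith
    · have h2 : Real.log t ≤ Real.log N + Real.log s := by
        rw [hts, Real.log_mul hd.ne' (by linarith)]
        have : Real.log (δ * N / 2) ≤ Real.log N := Real.log_le_log hd (by nlinarith)
        linarith
      have hls : 0 ≤ Real.log s := Real.log_nonneg hs1
      have h3 : l ≤ L * (1 + Real.log s) := by
        rw [hl, hL]
        nlinarith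
      have h4 : l ^ a ≤ L ^ a * (1 + Real.log s) ^ a := by
        rw [← Real.mul_rpow (by linarith) (by linarith)]
        exact Real.rpow_le_rpow (by linarith) h3 h0.le
      have h5 : B * L ^ a ≤ t2 := by
        refine le_trans ?_ hBL
        exact mul_le_mul_of_nonneg_left
          (Real.rpow_le_rpow_of_exponent_le hlN (by linarith)) hB.le
      have h6 := hlog s hs1
      have hLa : 0 ≤ L ^ a := by positivity
      calc B * l ^ a ≤ B * (L ^ a * (1 + Real.log s) ^ a) :=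
            mul_le_mul_of_nonneg_left h4 hB.le
        _ = (B * L ^ a) * (1 + Real.log s) ^ a := by ring
        _ ≤ t2 * (Ca * s) := by
            apply mul_le_mul h5 h6 (by positivity) ht2.le
        _ ≤ (Ca * t2 + 1) * s := by nlinarith
  calc B * h x ≤ B * ((1 + 1) * (l ^ a / t)) := mul_le_mul_of_nonneg_left h1 hB.le
    _ = 2 * (B * l ^ a) / t := by ring
    _ ≤ 2 * ((Ca * t2 + 1) * s) / t := by
        apply div_le_div_of_nonneg_right _ ht0.le
        linarith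
    _ = 4 * (Ca * t2 + 1) / δ / N := by
        rw [hts]; field_simp; ring

end Pool.Agent.Helper98.LogPoly
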